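import Pool.Agent.Helper17K9.ED.Stm

set_option autoImplicit false

namespace Pool.Agent.Helper86K9.ED

open Pool.Agent.Helper17K9.ED

theorem unit3 {l : ℕ} (hl : l.Prime) {b : ℕ} (hb : b + 3 < l) :
    ((b : ZMod l) + 1) * ((b : ZMod l) + 2) * ((b : ZMod l) + 3) ≠ 0 := by
  have := Fact.mk hl
  have h : ∀ j : ℕ, 0 < j → b + j < l → ((b : ZMod l) + (j : ZMod l)) ≠ 0 := by
    intro j hj hbj h0
    have h1 : ((b + j : ℕ) : ZMod l) = 0 := by
      push_cast
      exact h0
    have h2 := Nat.le_of_dvd (by omega) ((ZMod.natCast_eq_zero_iff _ _).1 h1)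
    omega
  have h1 := h 1 one_pos (by omega)
  have h2 := h 2 two_pos (by omega)
  have h3 := h 3 (by norm_num) hb
  push_cast at h1 h2 h3
  exact mul_ne_zero (mul_ne_zero h1 h2) h3

theorem lue (hS : S_SUP) : S_LUE := by
  intro l p a hl hap hp
  have := Fact.mk hl
  set b := p - a with hb
  set κ := p + a * (l - 1) with hκ
  have hκ' : κ = l * a + b := by
    obtain ⟨m, rfl⟩ : ∃ m, l = m + 1 := ⟨l - 1, by have := hl.pos; omega⟩
    simp only [Nat.add_sub_cancel] at hκ
    rw [hκ, hb]
    have : (m + 1) * a = a * m + a := by ring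
    omega
  have hbl : 2 * b < l := by omega
  have h1 := hS κ
  have h2 := hS b
  have hκz : ((κ : ℤ) : ZMod l) = (b : ZMod l) := by
    rw [hκ']
    push_cast
    simp
  have hbz : ((b : ℤ) : ZMod l) = (b : ZMod l) := by push_cast; rfl
  have h1' := congrArg (fun z : ℤ => (z : ZMod l)) h1
  have h2' := congrArg (fun z : ℤ => (z : ZMod l)) h2
  simp only [Int.cast_mul, Int.cast_add, Int.cast_one, Int.cast_ofNat, hκz, hbz] at h1' h2'
  have hchoose : ((Nat.centralBinom κ : ℤ) : ZMod l) =
      ((Nat.centralBinom b : ℤ) : ZMod l) * (Nat.choose (2 * a) a : ZMod l) := by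
    have h3 := Choose.choose_modEq_choose_mod_mul_choose_div_nat (n := 2 * κ) (k := κ) (p := l)
    have e1 : 2 * κ = l * (2 * a) + 2 * b := by rw [hκ']; ring
    have e2 : (2 * κ) % l = 2 * b := by
      rw [e1, Nat.mul_add_mod, Nat.mod_eq_of_lt hbl]
    have e3 : (2 * κ) / l = 2 * a := by
      rw [e1, Nat.mul_add_div hl.pos, Nat.div_eq_of_lt hbl, add_zero]
    have e4 : κ % l = b := by
      rw [hκ', Nat.mul_add_mod, Nat.mod_eq_of_lt (by omega)]
    have e5 : κ / l = a := by
      rw [hκ', Nat.mul_add_div hl.pos, Nat.div_eq_of_lt (by omega), add_zero]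
    rw [e2, e3, e4, e5] at h3
    have h4 := (ZMod.natCast_eq_natCast_iff _ _ _).2 h3
    rw [Nat.centralBinom_eq_two_mul_choose, Nat.centralBinom_eq_two_mul_choose]
    push_cast at h4 ⊢
    exact h4
  have hu := unit3 hl (b := b) (by omega)
  refine mul_right_cancel₀ hu ?_
  rw [h1', hchoose]
  calc (60 : ZMod l) * (((Nat.centralBinom b : ℤ) : ZMod l) * (Nat.choose (2 * a) a : ZMod l))
      = (Nat.choose (2 * a) a : ZMod l) * (60 * ((Nat.centralBinom b : ℤ) : ZMod l)) := by ring
    _ = (Nat.choose (2 * a) a : ZMod l) * (((sc b : ℤ) : ZMod l) *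
        (((b : ZMod l) + 1) * ((b : ZMod l) + 2) * ((b : ZMod l) + 3))) := by rw [h2']
    _ = _ := by ring

theorem luo (hS : S_SUP) : S_LUO := by
  intro l p a hl hap hp
  have := Fact.mk hl
  have hodd : l % 2 = 1 := by
    rcases hl.eq_two_or_odd with h | h
    · omega
    · exact h
  obtain ⟨h, hh⟩ : ∃ h, l = 2 * h + 1 := ⟨l / 2, by omega⟩
  have hh2 : (l - 1) / 2 = h := by omega
  set b := p - a with hb
  set κ := p + a * (l - 1) + (l - 1) / 2 with hκ
  have hκ' : κ = l * a + (b + h) := by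
    rw [hκ, hh2, hh, Nat.add_sub_cancel]
    have : (2 * h + 1) * a = a * (2 * h) + a := by ring
    omega
  have hbh : b + h + 3 < l := by omega
  have h1 := hS κ
  have hκz : ((κ : ℤ) : ZMod l) = ((b + h : ℕ) : ZMod l) := by
    rw [hκ']
    push_cast
    simp
  have h1' := congrArg (fun z : ℤ => (z : ZMod l)) h1
  simp only [Int.cast_mul, Int.cast_add, Int.cast_one, Int.cast_ofNat, hκz] at h1'
  have hchoose : ((Nat.centralBinom κ : ℤ) : ZMod l) = 0 := by
    have h3 := Choose.choose_modEq_choose_mod_mul_choose_div_nat (n := 2 * κ) (k := κ) (p := l)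
    have e1 : 2 * κ = l * (2 * a + 1) + (2 * b - 1) := by
      have : l * (2 * a + 1) = 2 * (l * a) + l := by ring
      omega
    have e2 : (2 * κ) % l = 2 * b - 1 := by
      rw [e1, Nat.mul_add_mod, Nat.mod_eq_of_lt (by omega)]
    have e4 : κ % l = b + h := by
      rw [hκ', Nat.mul_add_mod, Nat.mod_eq_of_lt (by omega)]
    rw [e2, e4, Nat.choose_eq_zero_of_lt (by omega : 2 * b - 1 < b + h), zero_mul] at h3
    have h4 := (ZMod.natCast_eq_natCast_iff _ _ _).2 h3
    rw [Nat.centralBinom_eq_two_mul_choose]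
    push_cast at h4 ⊢
    exact h4
  rw [hchoose, mul_zero] at h1'
  have hu := unit3 hl (b := b + h) hbh
  exact (mul_eq_zero.1 h1').resolve_right hu

/-- the product of three binomial coefficients -/
theorem triple (p a b : ℕ) (h : a + b = p) :
    Nat.choose (2 * p) (2 * a) * Nat.choose (2 * a) a * Nat.choose (2 * b) b =
      Nat.centralBinom p * Nat.choose p b ^ 2 := by
  have e1 : Nat.choose (2 * p) (2 * a) * (2 * a).factorial * (2 * b).factorial =
      (2 * p).factorial := by
    have := Nat.choose_mul_factorial_mul_factorial (n := 2 * p) (k := 2 * a) (by omega)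
    rwa [show 2 * p - 2 * a = 2 * b by omega] at this
  have e2 : Nat.choose (2 * a) a * a.factorial * a.factorial = (2 * a).factorial := by
    have := Nat.choose_mul_factorial_mul_factorial (n := 2 * a) (k := a) (by omega)
    rwa [show 2 * a - a = a by omega] at this
  have e3 : Nat.choose (2 * b) b * b.factorial * b.factorial = (2 * b).factorial := by
    have := Nat.choose_mul_factorial_mul_factorial (n := 2 * b) (k := b) (by omega)
    rwa [show 2 * b - b = b by omega] at this
  have e4 : Nat.choose (2 * p) p * p.factorial * p.factorial = (2 * p).factorial := by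
    have := Nat.choose_mul_factorial_mul_factorial (n := 2 * p) (k := p) (by omega)
    rwa [show 2 * p - p = p by omega] at this
  have e5 : Nat.choose p b * b.factorial * a.factorial = p.factorial := by
    have := Nat.choose_mul_factorial_mul_factorial (n := p) (k := b) (by omega)
    rwa [show p - b = a by omega] at this
  have hpos : 0 < (a.factorial * b.factorial) ^ 2 := by
    have := Nat.factorial_pos a
    have := Nat.factorial_pos b
    positivity
  refine Nat.eq_of_mul_eq_mul_right hpos ?_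
  rw [Nat.centralBinom_eq_two_mul_choose]
  calc Nat.choose (2 * p) (2 * a) * Nat.choose (2 * a) a * Nat.choose (2 * b) b *
        (a.factorial * b.factorial) ^ 2
      = Nat.choose (2 * p) (2 * a) * (Nat.choose (2 * a) a * a.factorial * a.factorial) *
        (Nat.choose (2 * b) b * b.factorial * b.factorial) := by ring
    _ = (2 * p).factorial := by rw [e2, e3, e1]
    _ = Nat.choose (2 * p) p * (Nat.choose p b * b.factorial * a.factorial) *
        (Nat.choose p b * b.factorial * a.factorial) := by rw [e5, e4]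
    _ = _ := by ring

/-- absorption, three times -/
theorem absorb (p a b : ℕ) (h : a + b = p) :
    Nat.choose (p + 3) a * ((b + 1) * (b + 2) * (b + 3)) =
      Nat.choose p b * ((p + 1) * (p + 2) * (p + 3)) := by
  have e5 : Nat.choose p b * b.factorial * a.factorial = p.factorial := by
    have := Nat.choose_mul_factorial_mul_factorial (n := p) (k := b) (by omega)
    rwa [show p - b = a by omega] at this
  have e6 : Nat.choose (p + 3) a * a.factorial * (b + 3).factorial = (p + 3).factorial := by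
    have := Nat.choose_mul_factorial_mul_factorial (n := p + 3) (k := a) (by omega)
    rwa [show p + 3 - a = b + 3 by omega] at this
  have f1 : (b + 3).factorial = (b + 3) * ((b + 2) * ((b + 1) * b.factorial)) := by
    rw [Nat.factorial_succ, Nat.factorial_succ, Nat.factorial_succ]
  have f2 : (p + 3).factorial = (p + 3) * ((p + 2) * ((p + 1) * p.factorial)) := by
    rw [Nat.factorial_succ, Nat.factorial_succ, Nat.factorial_succ]
  have hpos : 0 < a.factorial * b.factorial := by
    have := Nat.factorial_pos a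
    have := Nat.factorial_pos b
    positivity
  refine Nat.eq_of_mul_eq_mul_right hpos ?_
  calc Nat.choose (p + 3) a * ((b + 1) * (b + 2) * (b + 3)) * (a.factorial * b.factorial)
      = Nat.choose (p + 3) a * a.factorial * ((b + 3) * ((b + 2) * ((b + 1) * b.factorial))) := by
        ring
    _ = (p + 3) * ((p + 2) * ((p + 1) * p.factorial)) := by rw [← f1, e6, f2]
    _ = (p + 3) * ((p + 2) * ((p + 1) * (Nat.choose p b * b.factorial * a.factorial))) := by
        rw [e5]
    _ = _ := by ring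

theorem term (hS : S_SUP) (p a b : ℕ) (h : a + b = p) :
    (Nat.choose (2 * p) (2 * a) : ℤ) * (Nat.choose (2 * a) a : ℤ) * sc b *
      (((p : ℤ) + 1) * ((p : ℤ) + 2) * ((p : ℤ) + 3)) =
    60 * (Nat.centralBinom p : ℤ) * ((Nat.choose (p + 3) a : ℤ) * (Nat.choose p b : ℤ)) := by
  have h1 := hS b
  have h2 : (Nat.choose (2 * p) (2 * a) : ℤ) * Nat.choose (2 * a) a * Nat.choose (2 * b) b =
      Nat.centralBinom p * (Nat.choose p b : ℤ) ^ 2 := by exact_mod_cast triple p a b h
  have h3 : (Nat.choose (p + 3) a : ℤ) * (((b : ℤ) + 1) * ((b : ℤ) + 2) * ((b : ℤ) + 3)) =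
      Nat.choose p b * (((p : ℤ) + 1) * ((p : ℤ) + 2) * ((p : ℤ) + 3)) := by
    exact_mod_cast absorb p a b h
  have hpos : ((b : ℤ) + 1) * ((b : ℤ) + 2) * ((b : ℤ) + 3) ≠ 0 := by positivity
  refine mul_right_cancel₀ hpos ?_
  rw [Nat.centralBinom_eq_two_mul_choose b] at h1
  set P : ℤ := ((p : ℤ) + 1) * ((p : ℤ) + 2) * ((p : ℤ) + 3)
  set B : ℤ := ((b : ℤ) + 1) * ((b : ℤ) + 2) * ((b : ℤ) + 3)
  calc (Nat.choose (2 * p) (2 * a) : ℤ) * (Nat.choose (2 * a) a : ℤ) * sc b * P * B
      = (Nat.choose (2 * p) (2 * a) : ℤ) * (Nat.choose (2 * a) a : ℤ) * P * (sc b * B) := by ring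
    _ = 60 * P * ((Nat.choose (2 * p) (2 * a) : ℤ) * Nat.choose (2 * a) a *
        Nat.choose (2 * b) b) := by rw [h1]; ring
    _ = 60 * (Nat.centralBinom p : ℤ) * (Nat.choose p b : ℤ) * (Nat.choose p b * P) := by
        rw [h2]; ring
    _ = 60 * (Nat.centralBinom p : ℤ) * (Nat.choose p b : ℤ) * (Nat.choose (p + 3) a * B) := by
        rw [h3]
    _ = _ := by ring

theorem vde (hS : S_SUP) : S_VDE := by
  intro p
  rw [Finset.sum_mul]
  have h1 : ∀ a ∈ Finset.range (p + 1),
      (Nat.choose (2 * p) (2 * a) : ℤ) * (Nat.choose (2 * a) a : ℤ) * sc (p - a) *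
        (((p : ℤ) + 1) * ((p : ℤ) + 2) * ((p : ℤ) + 3)) =
      60 * (Nat.centralBinom p : ℤ) *
        (((Nat.choose (p + 3) a * Nat.choose p (p - a) : ℕ)) : ℤ) := by
    intro a ha
    rw [Finset.mem_range] at ha
    rw [term hS p a (p - a) (by omega)]
    push_cast
    ring
  rw [Finset.sum_congr rfl h1, ← Finset.mul_sum, ← Nat.cast_sum]
  congr 2
  have h2 := Nat.add_choose_eq (p + 3) p p
  rw [Finset.Nat.sum_antidiagonal_eq_sum_range_succ_mk] at h2
  rw [show 2 * p + 3 = p + 3 + p by ring, h2]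

theorem vdo (hS : S_SUP) : S_VDO := by
  intro p hp
  obtain ⟨q, rfl⟩ : ∃ q, p = q + 1 := ⟨p - 1, by omega⟩
  rw [Finset.sum_mul]
  have h1 : ∀ a ∈ Finset.range (q + 1),
      (Nat.choose (2 * (q + 1) - 1) (2 * a) : ℤ) * (Nat.choose (2 * a) a : ℤ) * sc (q + 1 - a) *
        ((((q + 1 : ℕ) : ℤ) + 1) * (((q + 1 : ℕ) : ℤ) + 2) * (((q + 1 : ℕ) : ℤ) + 3)) =
      60 * (Nat.centralBinom (q + 1) : ℤ) *
        (((Nat.choose (q + 1 + 3) a * Nat.choose q (q - a) : ℕ)) : ℤ) := by
    intro a ha
    rw [Finset.mem_range] at ha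
    have hb : q + 1 - a = q - a + 1 := by omega
    have ht := term hS (q + 1) a (q - a + 1) (by omega)
    have c1 : (Nat.choose (2 * (q + 1) - 1) (2 * a) : ℤ) * ((q : ℤ) + 1) =
        Nat.choose (2 * (q + 1)) (2 * a) * ((q - a + 1 : ℕ) : ℤ) := by
      have h2 := Nat.choose_mul_succ_eq (2 * q + 1) (2 * a)
      have e1 : 2 * q + 1 + 1 - 2 * a = 2 * (q - a + 1) := by omega
      rw [e1, show 2 * q + 1 + 1 = 2 * (q + 1) by ring] at h2
      have e2 : 2 * (q + 1) - 1 = 2 * q + 1 := by omega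
      rw [e2]
      have h3 : Nat.choose (2 * q + 1) (2 * a) * (q + 1) =
          Nat.choose (2 * (q + 1)) (2 * a) * (q - a + 1) := by
        have h4 : 2 * (Nat.choose (2 * q + 1) (2 * a) * (q + 1)) =
          2 * (Nat.choose (2 * (q + 1)) (2 * a) * (q - a + 1)) := by
          calc 2 * (Nat.choose (2 * q + 1) (2 * a) * (q + 1))
              = Nat.choose (2 * q + 1) (2 * a) * (2 * (q + 1)) := by ring
            _ = _ := by rw [h2]; ring
        exact Nat.eq_of_mul_eq_mul_left two_pos h4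
      exact_mod_cast h3
    have c2 : ((q : ℤ) + 1) * Nat.choose q (q - a) =
        Nat.choose (q + 1) (q - a + 1) * ((q - a + 1 : ℕ) : ℤ) := by
      have h2 := Nat.add_one_mul_choose_eq q (q - a)
      exact_mod_cast h2
    have hq : ((q : ℤ) + 1) ≠ 0 := by positivity
    refine mul_right_cancel₀ hq ?_
    rw [hb]
    set P : ℤ := (((q + 1 : ℕ) : ℤ) + 1) * (((q + 1 : ℕ) : ℤ) + 2) * (((q + 1 : ℕ) : ℤ) + 3)
    set b : ℤ := ((q - a + 1 : ℕ) : ℤ)
    calc (Nat.choose (2 * (q + 1) - 1) (2 * a) : ℤ) * (Nat.choose (2 * a) a : ℤ) *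
          sc (q - a + 1) * P * ((q : ℤ) + 1)
        = ((Nat.choose (2 * (q + 1) - 1) (2 * a) : ℤ) * ((q : ℤ) + 1)) *
          (Nat.choose (2 * a) a : ℤ) * sc (q - a + 1) * P := by ring
      _ = b * ((Nat.choose (2 * (q + 1)) (2 * a) : ℤ) * (Nat.choose (2 * a) a : ℤ) *
          sc (q - a + 1) * P) := by rw [c1]; ring
      _ = 60 * (Nat.centralBinom (q + 1) : ℤ) * (Nat.choose (q + 1 + 3) a : ℤ) *
          (Nat.choose (q + 1) (q - a + 1) * b) := by rw [ht]; ring
      _ = 60 * (Nat.centralBinom (q + 1) : ℤ) * (Nat.choose (q + 1 + 3) a : ℤ) *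
          (((q : ℤ) + 1) * Nat.choose q (q - a)) := by rw [c2]
      _ = _ := by push_cast; ring
  rw [Finset.sum_congr rfl h1, ← Finset.mul_sum, ← Nat.cast_sum]
  congr 2
  have h2 := Nat.add_choose_eq (q + 1 + 3) q q
  rw [Finset.Nat.sum_antidiagonal_eq_sum_range_succ_mk] at h2
  rw [← h2]
  have h3 := Nat.choose_symm_add (a := q) (b := q + 1 + 3)
  rw [show 2 * (q + 1) + 2 = q + (q + 1 + 3) by ring, ← h3, add_comm q (q + 1 + 3)]

end Pool.Agent.Helper86K9.ED
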